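import Mathlib

set_option autoImplicit false

namespace Pool.Agent.Results.MP_74c05d_an.Counter

open Metric

abbrev E (n : ℕ) := EuclideanSpace ℝ (Fin n)

/-- graph of the subdifferential -/
def subdiff {n : ℕ} (f : E n → EReal) : Set (E n × E n) :=
  {p | ∀ y, f p.1 + ((inner ℝ p.2 (y - p.1) : ℝ) : EReal) ≤ f y}

/-- monotone graph -/
def Mono {n : ℕ} (A : Set (E n × E n)) : Prop :=
  ∀ p ∈ A, ∀ q ∈ A, 0 ≤ inner ℝ (p.2 - q.2) (p.1 - q.1)

theorem not_proj {n : ℕ} (i j : Fin n) (hij : i ≠ j) (A : Set (E n × E n)) (hA : IsClosed A) :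
    Prod.fst '' A ≠ {x | 0 < x i ∨ (x i = 0 ∧ Irrational (x j))} := by
  intro h
  let l : ℝ → E n := fun t => EuclideanSpace.single j t
  have hl : Continuous l := by
    have : l = fun t : ℝ => t • EuclideanSpace.single j (1 : ℝ) := by
      funext t; ext k; simp [l, Pi.single_apply]
    rw [this]; fun_prop
  have e : {t : ℝ | Irrational t}ᶜ =
      ⋂ k : ℕ, (l ⁻¹' (Prod.fst '' (((fun p : E n × closedBall (0 : E n) k => (p.1, p.2.1)) ⁻¹' A))))ᶜ := by
    rw [← Set.compl_iUnion]
    congr 1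
    ext t
    have : l t ∈ Prod.fst '' A ↔ Irrational t := by rw [h]; simp [l, hij]
    rw [Set.mem_ofPred_eq, ← this, Set.mem_iUnion]
    constructor
    · rintro ⟨⟨x, u⟩, h1, h2⟩
      obtain ⟨k, hk⟩ := exists_nat_ge ‖u‖
      exact ⟨k, (x, ⟨u, by simpa using hk⟩), h1, h2⟩
    · rintro ⟨k, p, h1, h2⟩
      exact ⟨_, h1, h2⟩
  have g : IsGδ {t : ℝ | Irrational t}ᶜ := by
    rw [e]
    refine IsGδ.iInter_of_isOpen fun k => ?_
    have : CompactSpace (closedBall (0 : E n) k) :=
      isCompact_iff_compactSpace.1 (isCompact_closedBall _ _)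
    exact ((isClosedMap_fst_of_compactSpace _ (hA.preimage (by fun_prop))).preimage
      hl).isOpen_compl
  have d : Dense {t : ℝ | Irrational t}ᶜ :=
    Rat.denseRange_cast.mono (by rintro _ ⟨q, rfl⟩; exact q.not_irrational)
  obtain ⟨t, h1, h2⟩ := (dense_irrational.inter_of_Gδ IsGδ.setOfPred_irrational g d).nonempty
  exact h2 h1

theorem result (n : ℕ) (hn : 2 ≤ n) : ∃ C : Set (E n), C.Nonempty ∧ MeasurableSet C ∧
    (∃ D, Convex ℝ D ∧ D ⊆ C ∧ C ⊆ closure D) ∧
    (∀ f : E n → EReal, (∀ x, f x ≠ ⊥) → (∃ x, f x ≠ ⊤) → LowerSemicontinuous f →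
      Convex ℝ {p : E n × ℝ | f p.1 ≤ p.2} →
      Prod.fst '' subdiff f ≠ C ∧ Prod.snd '' subdiff f ≠ C) ∧
    (∀ A : Set (E n × E n), Mono A → (∀ B, Mono B → A ⊆ B → B = A) →
      Prod.fst '' A ≠ C ∧ Prod.snd '' A ≠ C) := by
  let i : Fin n := ⟨0, by omega⟩
  let j : Fin n := ⟨1, by omega⟩
  have hij : i ≠ j := by simp [i, j]
  have key : ∀ A : Set (E n × E n), IsClosed A →
      Prod.fst '' A ≠ {x | 0 < x i ∨ (x i = 0 ∧ Irrational (x j))} ∧
      Prod.snd '' A ≠ {x | 0 < x i ∨ (x i = 0 ∧ Irrational (x j))} := by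
    intro A hA
    refine ⟨not_proj i j hij A hA, ?_⟩
    have := not_proj i j hij (Prod.swap ⁻¹' A) (hA.preimage continuous_swap)
    rwa [← Set.image_swap_eq_preimage_swap, Set.image_image] at this
  have c : ∀ k, Continuous fun x : E n => x k := fun k => by fun_prop
  refine ⟨_, ⟨EuclideanSpace.single i 1, Or.inl (by simp)⟩, ?_,
    ⟨{x | 0 < x i}, ?_, fun x hx => Or.inl hx, fun x hx => ?_⟩, fun f h1 _ h3 _ => key _ ?_,
    fun A h1 h2 => key _ ?_⟩
  · exact (measurableSet_lt measurable_const (c i).measurable).union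
      ((measurableSet_eq_fun (c i).measurable measurable_const).inter
        ((c j).measurable IsGδ.setOfPred_irrational.measurableSet))
  · exact convex_halfSpace_gt (f := fun x : E n => x i) ⟨fun _ _ => rfl, fun _ _ => rfl⟩ 0
  · have h0 : 0 ≤ x i := hx.elim (fun h => le_of_lt h) fun h => h.1.ge
    have lim : Filter.Tendsto (fun s : ℝ => x + s • EuclideanSpace.single i (1 : ℝ))
        (nhdsWithin 0 (Set.Ioi 0)) (nhds x) := by
      have : Continuous fun s : ℝ => x + s • EuclideanSpace.single i (1 : ℝ) := by fun_prop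
      simpa using (this.tendsto 0).mono_left nhdsWithin_le_nhds
    refine mem_closure_of_tendsto lim ?_
    filter_upwards [self_mem_nhdsWithin] with s hs
    have : (0 : ℝ) < s := hs
    simpa using by linarith
  · rw [subdiff, Set.ofPred_forall]
    refine isClosed_iInter fun y => ?_
    by_cases hy : f y = ⊤
    · simp [hy]
    obtain ⟨r, hr⟩ : ∃ r : ℝ, f y = r := ⟨_, (EReal.coe_toReal hy (h1 y)).symm⟩
    have := h3.isClosed_epigraph.preimage (f := fun p : E n × E n =>
      (p.1, ((r - inner ℝ p.2 (y - p.1) : ℝ) : EReal)))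
      (continuous_fst.prodMk (continuous_coe_real_ereal.comp (by fun_prop)))
    convert this using 1
    ext p
    simp only [Set.mem_ofPred_eq, Set.mem_preimage, hr, EReal.coe_sub]
    exact (EReal.le_sub_iff_add_le (Or.inl (EReal.coe_ne_bot _)) (Or.inl (EReal.coe_ne_top _))).symm
  · refine closure_eq_iff_isClosed.1 (h2 _ (fun p hp q hq => ?_) subset_closure)
    have := closure_minimal (s := A ×ˢ A) (t := {z : (E n × E n) × (E n × E n) |
      0 ≤ inner ℝ (z.1.2 - z.2.2) (z.1.1 - z.2.1)}) (fun z hz => h1 _ hz.1 _ hz.2)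
      (isClosed_le continuous_const (by fun_prop))
    rw [closure_prod_eq] at this
    exact this (Set.mk_mem_prod hp hq)

end Pool.Agent.Results.MP_74c05d_an.Counter
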